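import Pool.Agent.Helper11.Q3.Stmts

/-!
Block J1: the signs of the real characters of odd conductor, from the character sums (J1a) and the
densities (J1b).
-/

set_option autoImplicit false

namespace Pool.Agent.Helper63.Q3

open Finset Pool.Agent.Helper11.Q3

lemma mem_OS {Q q : ℕ} : q ∈ OS Q ↔ (1 ≤ q ∧ q ≤ Q) ∧ Odd q ∧ Squarefree q := by
  unfold OS
  rw [mem_filter, mem_Icc]

lemma zq_eq {q p : ℕ} (hq : q ≠ 0) (hp : p.Prime) :
    zq q p = -(jacobiSym p q : ℝ) + (if p ∣ q then 1 else 0) := by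
  unfold zq
  split_ifs with h
  · have : jacobiSym p q = 0 := by
      have : NeZero q := ⟨hq⟩
      rw [jacobiSym.eq_zero_iff_not_coprime]
      intro h1
      have h2 : p ∣ Int.gcd (p : ℤ) q := by
        rw [Int.gcd_natCast_natCast]
        exact Nat.dvd_gcd dvd_rfl h
      rw [h1] at h2
      exact hp.one_lt.ne' (Nat.dvd_one.1 h2)
    rw [this]; simp
  · simp

lemma jacobi_prod (T : Finset ℕ) (q : ℕ) :
    (jacobiSym ((∏ p ∈ T, p : ℕ) : ℤ) q : ℝ) = ∏ p ∈ T, (jacobiSym p q : ℝ) := by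
  classical
  induction T using Finset.induction_on with
  | empty => simp
  | insert a s ha ih =>
    rw [prod_insert ha, prod_insert ha, ← ih]
    push_cast
    rw [jacobiSym.mul_left]
    push_cast
    ring

lemma dvd_prod {T : Finset ℕ} (hT : ∀ p ∈ T, p.Prime) (q : ℕ) :
    ∏ p ∈ T, (if p ∣ q then (1 : ℝ) else 0) = if (∏ p ∈ T, p) ∣ q then 1 else 0 := by
  by_cases h : (∏ p ∈ T, p) ∣ q
  · rw [if_pos h]
    apply prod_eq_one
    intro p hp
    rw [if_pos ((dvd_prod_of_mem _ hp).trans h)]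
  · rw [if_neg h]
    have h1 : ∃ p ∈ T, ¬ p ∣ q := by
      by_contra hcon
      push Not at hcon
      exact h (Finset.prod_primes_dvd q (fun p hp => (hT p hp).prime) hcon)
    obtain ⟨p, hp, hpq⟩ := h1
    exact prod_eq_zero hp (if_neg hpq)

/-- the expansion -/
lemma expand {Q : ℕ} {S : Finset ℕ} (hS : ∀ p ∈ S, p.Prime) :
    ∑ q ∈ OS Q, ∏ p ∈ S, zq q p = ∑ T ∈ S.powerset, (-1 : ℝ) ^ T.card *
      ∑ q ∈ (OS Q).filter (fun q => (∏ p ∈ S \ T, p) ∣ q),
        (jacobiSym ((∏ p ∈ T, p : ℕ) : ℤ) q : ℝ) := by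
  classical
  have h1 : ∀ q ∈ OS Q, ∏ p ∈ S, zq q p = ∑ T ∈ S.powerset, (-1 : ℝ) ^ T.card *
      (if (∏ p ∈ S \ T, p) ∣ q then (jacobiSym ((∏ p ∈ T, p : ℕ) : ℤ) q : ℝ) else 0) := by
    intro q hq
    have hq0 : q ≠ 0 := by
      have := (mem_OS.1 hq).1.1
      omega
    rw [prod_congr rfl fun p hp => zq_eq hq0 (hS p hp), prod_add]
    apply sum_congr rfl
    intro T hT
    have hTS := mem_powerset.1 hT
    rw [prod_neg, dvd_prod (T := S \ T) (fun p hp => hS p (mem_sdiff.1 hp).1), jacobi_prod]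
    split_ifs <;> ring
  rw [sum_congr rfl h1, sum_comm]
  apply sum_congr rfl
  intro T _
  rw [sum_filter, mul_sum]

/-- **Block J1.** -/
theorem j1 (h1a : StmtJ1a) (h1b : StmtJ1b) : StmtJ1 := by
  classical
  obtain ⟨C1, hC1, ha⟩ := h1a
  obtain ⟨C2, hC2, hb⟩ := h1b
  refine ⟨C1 + C2, by positivity, fun Q S hS => ?_⟩
  have hsq : 0 ≤ Real.sqrt (Q : ℝ) := Real.sqrt_nonneg _
  have hone : ∀ T : Finset ℕ, (∀ p ∈ T, p.Prime) → (1 : ℝ) ≤ ∏ p ∈ T, (p : ℝ) := by
    intro T hT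
    have h1 : 1 ≤ ∏ p ∈ T, p := prod_pos fun r hr => (hT r hr).pos
    rw [← Nat.cast_prod, ← Nat.cast_one]
    exact Nat.cast_le.2 h1
  have hprod1 : (1 : ℝ) ≤ ∏ p ∈ S, (p : ℝ) := hone S hS
  set W : ℝ := ∏ p ∈ S, (p : ℝ) with hW
  rw [expand hS]
  rw [← add_sum_erase _ _ (empty_mem_powerset S)]
  simp only [card_empty, pow_zero, one_mul, sdiff_empty, prod_empty, Nat.cast_one,
    jacobiSym.one_left, Int.cast_one, sum_const, nsmul_eq_mul, mul_one]
  have hodd : ∀ q ∈ OS Q, ¬ 2 ∣ q := by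
    intro q hq h2
    have := (mem_OS.1 hq).2.1
    rw [← Nat.not_even_iff_odd, even_iff_two_dvd] at this
    exact this h2
  -- the main term
  have hmain : |(((OS Q).filter (fun q => (∏ p ∈ S, p) ∣ q)).card : ℝ) -
      (OS Q).card * ∏ p ∈ S, bp p| ≤ C2 * Real.sqrt Q := by
    by_cases h2 : 2 ∈ S
    · have e1 : (OS Q).filter (fun q => (∏ p ∈ S, p) ∣ q) = ∅ := by
        apply filter_eq_empty_iff.2
        intro q hq hd
        exact hodd q hq ((dvd_prod_of_mem _ h2).trans hd)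
      have e2 : ∏ p ∈ S, bp p = 0 := prod_eq_zero h2 (by simp [bp])
      rw [e1, e2]
      simp
      positivity
    · exact hb Q S fun p hp => ⟨hS p hp, fun h => h2 (h ▸ hp)⟩
  -- the other terms
  have hrest : ∀ T ∈ S.powerset.erase ∅, |(-1 : ℝ) ^ T.card *
      ∑ q ∈ (OS Q).filter (fun q => (∏ p ∈ S \ T, p) ∣ q),
        (jacobiSym ((∏ p ∈ T, p : ℕ) : ℤ) q : ℝ)| ≤ C1 * W * Real.sqrt Q := by
    intro T hT
    obtain ⟨hT0, hTS⟩ := mem_erase.1 hT
    have hTS := mem_powerset.1 hTS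
    rw [abs_mul, abs_pow, abs_neg, abs_one, one_pow, one_mul]
    by_cases h2 : 2 ∈ S \ T
    · have e1 : (OS Q).filter (fun q => (∏ p ∈ S \ T, p) ∣ q) = ∅ := by
        apply filter_eq_empty_iff.2
        intro q hq hd
        exact hodd q hq ((dvd_prod_of_mem _ h2).trans hd)
      rw [e1]
      simp only [sum_empty, abs_zero]
      positivity
    · have hsf : Squarefree (∏ p ∈ T, p) := by
        apply Finset.squarefree_prod_of_pairwise_isCoprime
        · intro p hp r hr hpr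
          exact Nat.coprime_iff_isRelPrime.1
            ((Nat.coprime_primes (hS p (hTS hp)) (hS r (hTS hr))).2 hpr)
        · intro p hp
          exact (hS p (hTS hp)).prime.squarefree
      have hgt : 1 < ∏ p ∈ T, p := by
        obtain ⟨p, hp⟩ := nonempty_iff_ne_empty.2 hT0
        have h3 : p ∣ ∏ p ∈ T, p := dvd_prod_of_mem _ hp
        have h4 : 0 < ∏ p ∈ T, p := prod_pos fun r hr => (hS r (hTS hr)).pos
        exact lt_of_lt_of_le (hS p (hTS hp)).one_lt (Nat.le_of_dvd h4 h3)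
      have hoddb : Odd (∏ p ∈ S \ T, p) := by
        apply Finset.prod_induction _ Odd (fun a b ha hb => ha.mul hb) odd_one
        intro p hp
        rcases (hS p (mem_sdiff.1 hp).1).eq_two_or_odd' with h | h
        · exact absurd (h ▸ hp) h2
        · exact h
      refine (ha Q (∏ p ∈ T, p) (∏ p ∈ S \ T, p) hsf hgt hoddb).trans ?_
      apply mul_le_mul_of_nonneg_right _ hsq
      apply mul_le_mul_of_nonneg_left _ hC1.le
      push_cast
      rw [hW]
      rw [← prod_sdiff hTS]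
      exact le_mul_of_one_le_left (by positivity)
        (hone (S \ T) fun p hp => hS p (mem_sdiff.1 hp).1)
  have hcard : ((S.powerset.erase ∅).card : ℝ) ≤ W := by
    have h3 : ((S.powerset.erase ∅).card : ℝ) ≤ (2 : ℝ) ^ S.card := by
      have := card_le_card (erase_subset ∅ S.powerset)
      rw [card_powerset] at this
      exact_mod_cast this
    refine h3.trans ?_
    rw [hW, ← prod_const]
    apply prod_le_prod (fun _ _ => by norm_num)
    intro p hp
    exact_mod_cast (hS p hp).two_le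
  have hW0 : 0 ≤ W := by linarith
  have hsum : |∑ T ∈ S.powerset.erase ∅, (-1 : ℝ) ^ T.card *
      ∑ q ∈ (OS Q).filter (fun q => (∏ p ∈ S \ T, p) ∣ q),
        (jacobiSym ((∏ p ∈ T, p : ℕ) : ℤ) q : ℝ)| ≤ W * (C1 * W * Real.sqrt Q) := by
    refine (abs_sum_le_sum_abs _ _).trans ((sum_le_sum hrest).trans ?_)
    rw [sum_const, nsmul_eq_mul]
    exact mul_le_mul_of_nonneg_right hcard (by positivity)
  have htri := abs_add_le ((((OS Q).filter (fun q => (∏ p ∈ S, p) ∣ q)).card : ℝ) -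
      (OS Q).card * ∏ p ∈ S, bp p) (∑ T ∈ S.powerset.erase ∅, (-1 : ℝ) ^ T.card *
      ∑ q ∈ (OS Q).filter (fun q => (∏ p ∈ S \ T, p) ∣ q),
        (jacobiSym ((∏ p ∈ T, p : ℕ) : ℤ) q : ℝ))
  have e : (((OS Q).filter (fun q => (∏ p ∈ S, p) ∣ q)).card : ℝ) +
      (∑ T ∈ S.powerset.erase ∅, (-1 : ℝ) ^ T.card *
      ∑ q ∈ (OS Q).filter (fun q => (∏ p ∈ S \ T, p) ∣ q),
        (jacobiSym ((∏ p ∈ T, p : ℕ) : ℤ) q : ℝ)) - (OS Q).card * ∏ p ∈ S, bp p =
      ((((OS Q).filter (fun q => (∏ p ∈ S, p) ∣ q)).card : ℝ) -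
      (OS Q).card * ∏ p ∈ S, bp p) + (∑ T ∈ S.powerset.erase ∅, (-1 : ℝ) ^ T.card *
      ∑ q ∈ (OS Q).filter (fun q => (∏ p ∈ S \ T, p) ∣ q),
        (jacobiSym ((∏ p ∈ T, p : ℕ) : ℤ) q : ℝ)) := by ring
  rw [e]
  refine htri.trans ((add_le_add hmain hsum).trans ?_)
  have h5 : C2 * Real.sqrt Q ≤ C2 * W ^ 2 * Real.sqrt Q := by
    apply mul_le_mul_of_nonneg_right _ hsq
    exact le_mul_of_one_le_right hC2.le (one_le_pow₀ hprod1)
  calc C2 * Real.sqrt Q + W * (C1 * W * Real.sqrt Q) ≤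
        C2 * W ^ 2 * Real.sqrt Q + W * (C1 * W * Real.sqrt Q) := by linarith
    _ = _ := by ring

end Pool.Agent.Helper63.Q3
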